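import Mathlib
set_option autoImplicit false
open MeasureTheory Filter Topology Set
namespace Pool.Agent.TH713.BZ

namespace Cont

variable {f f' : ℝ → ℂ} {c C C' : ℝ}

theorem isBigO_top (hb : ∀ x : ℝ, 0 < x → ‖f x‖ ≤ C * Real.exp (-c * x)) :
    f =O[atTop] fun t : ℝ => Real.exp (-c * t) := by
  apply Asymptotics.IsBigO.of_bound C
  filter_upwards [eventually_gt_atTop 0] with x hx
  rw [Real.norm_eq_abs, abs_of_pos (Real.exp_pos _)]
  exact hb x hx

theorem bound_nonneg (hb : ∀ x : ℝ, 0 < x → ‖f x‖ ≤ C * Real.exp (-c * x)) : 0 ≤ C := by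
  have h1 := (norm_nonneg _).trans (hb 1 one_pos)
  exact nonneg_of_mul_nonneg_left h1 (Real.exp_pos _)

theorem isBigO_zero (hc : 0 < c) (hb : ∀ x : ℝ, 0 < x → ‖f x‖ ≤ C * Real.exp (-c * x)) :
    f =O[𝓝[>] 0] (fun x : ℝ => x ^ (-(0 : ℝ))) := by
  apply Asymptotics.IsBigO.of_bound C
  filter_upwards [self_mem_nhdsWithin] with x hx
  have hx' : 0 < x := hx
  rw [neg_zero, Real.rpow_zero, norm_one, mul_one]
  have h1 := hb x hx'
  have h2 : Real.exp (-c * x) ≤ 1 := by
    rw [Real.exp_le_one_iff]; nlinarith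
  have h3 := bound_nonneg hb
  nlinarith

theorem locInt (hd : ∀ x : ℝ, 0 < x → HasDerivAt f (f' x) x) :
    LocallyIntegrableOn f (Ioi 0) := by
  apply ContinuousOn.locallyIntegrableOn _ measurableSet_Ioi
  intro x hx
  exact (hd x hx).continuousAt.continuousWithinAt

theorem conv (hc : 0 < c) (hd : ∀ x : ℝ, 0 < x → HasDerivAt f (f' x) x)
    (hb : ∀ x : ℝ, 0 < x → ‖f x‖ ≤ C * Real.exp (-c * x)) (s : ℂ) (hs : 0 < s.re) :
    MellinConvergent f s :=
  mellinConvergent_of_isBigO_rpow_exp hc (locInt hd) (isBigO_top hb) (isBigO_zero hc hb) hs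

theorem diffAt (hc : 0 < c) (hd : ∀ x : ℝ, 0 < x → HasDerivAt f (f' x) x)
    (hb : ∀ x : ℝ, 0 < x → ‖f x‖ ≤ C * Real.exp (-c * x)) (s : ℂ) (hs : 0 < s.re) :
    DifferentiableAt ℂ (mellin f) s :=
  mellin_differentiableAt_of_isBigO_rpow_exp hc (locInt hd) (isBigO_top hb) (isBigO_zero hc hb) hs

/-- integration by parts -/
theorem step (hc : 0 < c) (hd : ∀ x : ℝ, 0 < x → HasDerivAt f (f' x) x)
    (hb : ∀ x : ℝ, 0 < x → ‖f x‖ ≤ C * Real.exp (-c * x))
    (hconv' : ∀ s : ℂ, 0 < s.re → MellinConvergent f' s) (s : ℂ) (hs : 0 < s.re) :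
    mellin f' (s + 1) = -s * mellin f s := by
  have hs0 : s ≠ 0 := by
    rintro rfl; simp at hs
  set F : ℝ → ℂ := fun x => (x : ℂ) ^ s * f x with hF
  have hbd : ∀ x : ℝ, 0 < x → ‖F x‖ ≤ C * (x ^ s.re * Real.exp (-c * x)) := by
    intro x hx
    show ‖(x : ℂ) ^ s * f x‖ ≤ _
    rw [norm_mul, Complex.norm_cpow_eq_rpow_re_of_pos hx]
    have h1 := hb x hx
    have h2 : 0 ≤ x ^ s.re := Real.rpow_nonneg hx.le _
    calc x ^ s.re * ‖f x‖ ≤ x ^ s.re * (C * Real.exp (-c * x)) :=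
          mul_le_mul_of_nonneg_left h1 h2
      _ = C * (x ^ s.re * Real.exp (-c * x)) := by ring
  have hder : ∀ x ∈ Ioi (0 : ℝ), HasDerivAt F (s * ((x : ℂ) ^ (s - 1) • f x)
      + (x : ℂ) ^ (s + 1 - 1) • f' x) x := by
    intro x hx
    have hx' : 0 < x := hx
    have h1 : HasDerivAt (fun y : ℝ => (y : ℂ) ^ s) (s * (x : ℂ) ^ (s - 1)) x := by
      have h3 := (hasDerivAt_id (x : ℂ)).cpow_const (c := s) (Or.inl (by simpa using hx'))
      have h4 := h3.comp_ofReal
      simpa using h4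
    have h2 := h1.mul (hd x hx')
    have h5 : s * ((x : ℂ) ^ (s - 1) • f x) + (x : ℂ) ^ (s + 1 - 1) • f' x
        = s * (x : ℂ) ^ (s - 1) * f x + (x : ℂ) ^ s * f' x := by
      rw [smul_eq_mul, smul_eq_mul, add_sub_cancel_right]; ring
    rw [h5]
    exact h2
  have hint : IntegrableOn (fun x : ℝ => s * ((x : ℂ) ^ (s - 1) • f x)
      + (x : ℂ) ^ (s + 1 - 1) • f' x) (Ioi 0) := by
    apply Integrable.add
    · exact (conv hc hd hb s hs).const_mul s
    · exact hconv' (s + 1) (by simp; linarith)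
  have hF0 : F 0 = 0 := by
    rw [hF]; simp [hs0]
  have hcont : ContinuousWithinAt F (Ici 0) 0 := by
    unfold ContinuousWithinAt
    rw [hF0]
    apply squeeze_zero_norm' (a := fun x : ℝ => C * x ^ s.re)
    · filter_upwards [self_mem_nhdsWithin] with x hx
      have hx' : 0 ≤ x := hx
      rcases hx'.eq_or_lt with h | h
      · rw [← h, hF0, norm_zero, Real.zero_rpow hs.ne', mul_zero]
      · refine (hbd x h).trans ?_
        have h1 := bound_nonneg hb
        have h2 : 0 ≤ x ^ s.re := Real.rpow_nonneg h.le _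
        have h3 : Real.exp (-c * x) ≤ 1 := by
          rw [Real.exp_le_one_iff]; nlinarith
        have h4 : x ^ s.re * Real.exp (-c * x) ≤ x ^ s.re := by nlinarith
        exact mul_le_mul_of_nonneg_left h4 h1
    · have h1 : Tendsto (fun x : ℝ => C * x ^ s.re) (𝓝 0) (𝓝 (C * (0 : ℝ) ^ s.re)) :=
        ((Real.continuous_rpow_const hs.le).tendsto 0).const_mul C
      rw [Real.zero_rpow hs.ne', mul_zero] at h1
      exact h1.mono_left nhdsWithin_le_nhds
  have htop : Tendsto F atTop (𝓝 0) := by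
    apply squeeze_zero_norm' (a := fun x : ℝ => C * (x ^ s.re * Real.exp (-c * x)))
    · filter_upwards [eventually_gt_atTop 0] with x hx
      exact hbd x hx
    · have h1 := (tendsto_rpow_mul_exp_neg_mul_atTop_nhds_zero s.re c hc).const_mul C
      rwa [mul_zero] at h1
  have hI := integral_Ioi_of_hasDerivAt_of_tendsto hcont hder hint htop
  rw [hF0, sub_zero] at hI
  have hI2 : ∫ x : ℝ in Ioi 0, (s * ((x : ℂ) ^ (s - 1) • f x) + (x : ℂ) ^ (s + 1 - 1) • f' x)
      = s * mellin f s + mellin f' (s + 1) := by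
    rw [integral_add ((conv hc hd hb s hs).const_mul s) (hconv' (s + 1) (by simp; linarith))]
    rw [integral_const_mul]
    rfl
  rw [hI2] at hI
  linear_combination hI

end Cont

theorem cont (h : ℕ → ℝ → ℂ) (c : ℝ) (hc : 0 < c)
    (hd : ∀ n, ∀ x : ℝ, 0 < x → HasDerivAt (h n) (h (n + 1) x) x)
    (hb : ∀ n, ∃ C : ℝ, ∀ x : ℝ, 0 < x → ‖h n x‖ ≤ C * Real.exp (-c * x)) :
    ∃ R : ℂ → ℂ, Differentiable ℂ R ∧ ∀ (N : ℕ) (u : ℂ), 0 < u.re + N →
      R u = (-1) ^ N * (Complex.Gamma (u + N))⁻¹ * mellin (h N) (u + N) := by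
  choose C hC using hb
  have hconv : ∀ (n : ℕ) (s : ℂ), 0 < s.re → MellinConvergent (h n) s := fun n s hs =>
    Cont.conv hc (hd n) (hC n) s hs
  set RN : ℕ → ℂ → ℂ := fun N u =>
    (-1) ^ N * (Complex.Gamma (u + N))⁻¹ * mellin (h N) (u + N) with hRN
  have hstep : ∀ (N : ℕ) (u : ℂ), 0 < u.re + N → RN (N + 1) u = RN N u := by
    intro N u hu
    have hre : 0 < (u + N : ℂ).re := by simpa using hu
    have hne : (u + N : ℂ) ≠ 0 := by
      intro h0; rw [h0] at hre; simp at hre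
    have h1 := Cont.step hc (hd N) (hC N) (hconv (N + 1)) (u + N) hre
    rw [hRN]
    simp only
    have h2 : u + ((N + 1 : ℕ) : ℂ) = u + N + 1 := by push_cast; ring
    rw [h2, h1, Complex.Gamma_add_one _ hne, mul_inv, pow_succ]
    field_simp
  have hsteps : ∀ (k N : ℕ) (u : ℂ), 0 < u.re + N → RN (N + k) u = RN N u := by
    intro k
    induction k with
    | zero => intro N u _; rfl
    | succ k ih =>
      intro N u hu
      have : N + (k + 1) = (N + k) + 1 := by ring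
      rw [this, hstep (N + k) u (by push_cast; have : (0 : ℝ) ≤ k := Nat.cast_nonneg k; linarith),
        ih N u hu]
  have hall : ∀ (N N' : ℕ) (u : ℂ), 0 < u.re + N → 0 < u.re + N' → RN N u = RN N' u := by
    intro N N' u hu hu'
    rcases le_total N N' with hle | hle
    · obtain ⟨k, rfl⟩ := Nat.exists_eq_add_of_le hle
      exact (hsteps k N u hu).symm
    · obtain ⟨k, rfl⟩ := Nat.exists_eq_add_of_le hle
      exact hsteps k N' u hu'
  have hceil : ∀ u : ℂ, 0 < u.re + ((⌈|u.re|⌉₊ + 1 : ℕ) : ℝ) := by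
    intro u
    have h1 := Nat.le_ceil |u.re|
    have h2 := neg_abs_le u.re
    push_cast
    linarith
  refine ⟨fun u => RN (⌈|u.re|⌉₊ + 1) u, ?_, ?_⟩
  · intro u0
    set N := ⌈|u0.re|⌉₊ + 1 with hN
    have hopen : ∀ᶠ u in 𝓝 u0, 0 < u.re + (N : ℝ) := by
      have : ContinuousAt (fun u : ℂ => u.re + (N : ℝ)) u0 := by fun_prop
      exact this.eventually (lt_mem_nhds (hceil u0))
    have heq : (fun u => RN (⌈|u.re|⌉₊ + 1) u) =ᶠ[𝓝 u0] RN N := by
      filter_upwards [hopen] with u hu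
      exact hall _ _ u (hceil u) hu
    apply DifferentiableAt.congr_of_eventuallyEq _ heq
    have hre : 0 < (u0 + N : ℂ).re := by
      rw [Complex.add_re, Complex.natCast_re]; exact hceil u0
    have h1 : DifferentiableAt ℂ (fun u : ℂ => (Complex.Gamma (u + N))⁻¹) u0 :=
      DifferentiableAt.comp (g := fun s : ℂ => (Complex.Gamma s)⁻¹) (f := fun u : ℂ => u + N) u0
        (Complex.differentiable_one_div_Gamma (u0 + N)) (by fun_prop)
    have h2 : DifferentiableAt ℂ (fun u : ℂ => mellin (h N) (u + N)) u0 :=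
      DifferentiableAt.comp (g := mellin (h N)) (f := fun u : ℂ => u + N) u0
        (Cont.diffAt hc (hd N) (hC N) (u0 + N) hre) (by fun_prop)
    exact (h1.const_mul _).mul h2
  · intro N u hu
    exact hall _ _ u (hceil u) hu

end Pool.Agent.TH713.BZ

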