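import Mathlib
set_option autoImplicit false
open MeasureTheory Filter Topology Set
namespace Pool.Agent.TH713.BZ

namespace Contra

theorem norm_sinh_le {w : ℂ} (hw : ‖w‖ ≤ 1) : ‖Complex.sinh w‖ ≤ 2 * ‖w‖ := by
  have h1 : Complex.sinh w = ((Complex.exp w - 1) - (Complex.exp (-w) - 1)) / 2 := by
    rw [Complex.sinh]; ring
  have h2 := Complex.norm_exp_sub_one_le hw
  have h3 := Complex.norm_exp_sub_one_le (x := -w) (by rwa [norm_neg])
  rw [norm_neg] at h3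
  rw [h1, norm_div]
  have h4 : ‖(2 : ℂ)‖ = 2 := by simp
  rw [h4, div_le_iff₀ (by norm_num)]
  calc ‖(Complex.exp w - 1) - (Complex.exp (-w) - 1)‖
      ≤ ‖Complex.exp w - 1‖ + ‖Complex.exp (-w) - 1‖ := norm_sub_le _ _
    _ ≤ 2 * ‖w‖ * 2 := by linarith

theorem norm_sinh_add (w : ℂ) (p : ℤ) :
    ‖Complex.sinh (w + (p : ℂ) * Real.pi * Complex.I)‖ = ‖Complex.sinh w‖ := by
  have hc : ‖Complex.cos ((p : ℂ) * Real.pi)‖ = 1 := by
    have h1 : Complex.cos ((p : ℂ) * Real.pi) = ((Real.cos ((p : ℝ) * Real.pi) : ℝ) : ℂ) := by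
      push_cast; rfl
    rw [h1, Complex.norm_real, Real.norm_eq_abs, Real.abs_cos_int_mul_pi]
  rw [Complex.sinh_add, Complex.sinh_mul_I, Complex.cosh_mul_I, Complex.sin_int_mul_pi,
    zero_mul, mul_zero, add_zero, norm_mul, hc, mul_one]

theorem sinh_ne_zero {w : ℂ} (hw : 0 < w.re) : Complex.sinh w ≠ 0 := by
  intro h
  rw [Complex.sinh, div_eq_zero_iff] at h
  rcases h with h | h
  · have h1 : Complex.exp w = Complex.exp (-w) := sub_eq_zero.mp h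
    have h2 := congrArg norm h1
    rw [Complex.norm_exp, Complex.norm_exp, Complex.neg_re] at h2
    have h3 := Real.exp_injective h2
    linarith
  · norm_num at h

end Contra

theorem contra (θ : ℝ) (hθ : 0 < θ) (hL : Liouville θ) (C : ℝ)
    (hC : ∀ z : ℂ, 0 < z.re → z.re ≤ 1 → 1 ≤ ‖z‖ →
      ‖1 / (4 * Complex.sinh (z / 2) * Complex.sinh (θ * z / 2)) - 1 / (θ * z ^ 2)‖ ≤
        C * ‖z‖ ^ (3 / 4 : ℝ) * z.re ^ (-(7 / 4) : ℝ)) : False := by
  have hpi := Real.pi_pos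
  set K1 : ℝ := 4 * (θ + 2 * Real.pi) with hK1
  have hK1p : 0 < K1 := by positivity
  set M : ℝ := K1 * (8 * |C| + 1 / θ) with hM
  have hM0 : 0 ≤ M := by positivity
  have hfr := hL.frequently_exists_num 5
  obtain ⟨k, ⟨p, -, hp⟩, hk⟩ := (hfr.and_eventually
    (eventually_ge_atTop (Nat.ceil (M ^ 4 + θ / 2 + Real.pi + 2)))).exists
  have hk0 : M ^ 4 + θ / 2 + Real.pi + 2 ≤ (k : ℝ) := (Nat.le_ceil _).trans (by exact_mod_cast hk)
  have hM4 : 0 ≤ M ^ 4 := by positivity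
  have hk1 : (1 : ℝ) ≤ k := by linarith
  have hkp : (0 : ℝ) < k := by linarith
  set δ : ℝ := 1 / (k : ℝ) ^ 4 with hδ
  have hδp : 0 < δ := by positivity
  have hδk : δ ≤ 1 / (k : ℝ) := by
    rw [hδ]
    apply one_div_le_one_div_of_le hkp
    exact le_self_pow₀ hk1 (by norm_num)
  have hδ1 : δ ≤ 1 := hδk.trans (by rw [div_le_one hkp]; exact hk1)
  have hkθ : |(k : ℝ) * θ - p| ≤ δ := by
    have h1 : (k : ℝ) * θ - p = k * (θ - p / k) := by field_simp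
    rw [h1, abs_mul, abs_of_pos hkp]
    have h2 : (k : ℝ) * |θ - p / k| ≤ k * (1 / (k : ℝ) ^ 5) := by
      gcongr
    refine h2.trans (le_of_eq ?_)
    rw [hδ]; field_simp
  -- the point
  set z : ℂ := (δ : ℂ) + 2 * Real.pi * k * Complex.I with hz
  have hzre : z.re = δ := by simp [hz]
  have hzim : z.im = 2 * Real.pi * k := by simp [hz]
  have hzn1 : 2 * Real.pi * k ≤ ‖z‖ := by
    have h1 := Complex.abs_im_le_norm z
    rw [hzim, abs_of_pos (by positivity)] at h1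
    exact h1
  have hpi3 := Real.pi_gt_three
  have hpi4 := Real.pi_lt_d2
  have hz1 : 1 ≤ ‖z‖ := by
    refine le_trans ?_ hzn1
    nlinarith
  have hz8 : ‖z‖ ≤ 8 * k := by
    have h1 : ‖z‖ ≤ |z.re| + |z.im| := Complex.norm_le_abs_re_add_abs_im z
    rw [hzre, hzim, abs_of_pos hδp, abs_of_pos (by positivity)] at h1
    nlinarith
  have hmain := hC z (by rw [hzre]; exact hδp) (by rw [hzre]; exact hδ1) hz1
  rw [hzre] at hmain
  -- first sinh
  have hs1 : ‖Complex.sinh (z / 2)‖ ≤ δ := by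
    have h1 : z / 2 = ((δ / 2 : ℝ) : ℂ) + ((k : ℤ) : ℂ) * Real.pi * Complex.I := by
      rw [hz]; push_cast; ring
    rw [h1, Contra.norm_sinh_add]
    have h2 : ‖((δ / 2 : ℝ) : ℂ)‖ = δ / 2 := by
      rw [Complex.norm_real, Real.norm_eq_abs, abs_of_pos (by positivity)]
    refine (Contra.norm_sinh_le (by rw [h2]; linarith)).trans ?_
    rw [h2]; linarith
  have hs1n : Complex.sinh (z / 2) ≠ 0 := by
    apply Contra.sinh_ne_zero
    have : (z / 2).re = z.re / 2 := by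
      rw [show z / 2 = z * ((1 / 2 : ℝ) : ℂ) by push_cast; ring, Complex.re_mul_ofReal]; ring
    rw [this, hzre]; positivity
  -- second sinh
  have hs2 : ‖Complex.sinh (θ * z / 2)‖ ≤ (θ + 2 * Real.pi) * δ := by
    have h1 : (θ : ℂ) * z / 2 = (((θ * δ / 2 : ℝ) : ℂ) + ((Real.pi * (k * θ - p) : ℝ) : ℂ) * Complex.I)
        + ((p : ℤ) : ℂ) * Real.pi * Complex.I := by
      rw [hz]; push_cast; ring
    rw [h1, Contra.norm_sinh_add]
    have h2 : ‖((θ * δ / 2 : ℝ) : ℂ) + ((Real.pi * (k * θ - p) : ℝ) : ℂ) * Complex.I‖ ≤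
        (θ / 2 + Real.pi) * δ := by
      refine (norm_add_le _ _).trans ?_
      rw [norm_mul, Complex.norm_I, mul_one, Complex.norm_real, Complex.norm_real,
        Real.norm_eq_abs, Real.norm_eq_abs, abs_of_pos (by positivity), abs_mul,
        abs_of_pos hpi]
      have h3 : Real.pi * |(k : ℝ) * θ - p| ≤ Real.pi * δ := by gcongr
      linarith
    have h3 : (θ / 2 + Real.pi) * δ ≤ 1 := by
      calc (θ / 2 + Real.pi) * δ ≤ k * (1 / (k : ℝ)) := by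
            apply mul_le_mul _ hδk hδp.le hkp.le
            linarith
        _ = 1 := by field_simp
    refine (Contra.norm_sinh_le (h2.trans h3)).trans ?_
    calc 2 * ‖((θ * δ / 2 : ℝ) : ℂ) + ((Real.pi * (k * θ - p) : ℝ) : ℂ) * Complex.I‖
        ≤ 2 * ((θ / 2 + Real.pi) * δ) := by gcongr
      _ = (θ + 2 * Real.pi) * δ := by ring
  have hs2n : Complex.sinh (θ * z / 2) ≠ 0 := by
    apply Contra.sinh_ne_zero
    have : ((θ : ℂ) * z / 2).re = θ * z.re / 2 := by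
      rw [show (θ : ℂ) * z / 2 = ((θ / 2 : ℝ) : ℂ) * z by push_cast; ring, Complex.re_ofReal_mul]
      ring
    rw [this, hzre]; positivity
  -- lower bound
  have hlow : 1 / (K1 * δ ^ 2) ≤
      ‖1 / (4 * Complex.sinh (z / 2) * Complex.sinh (θ * z / 2))‖ := by
    rw [norm_div, norm_one, norm_mul, norm_mul]
    have h4 : ‖(4 : ℂ)‖ = 4 := by simp
    rw [h4]
    have ha : 0 < ‖Complex.sinh (z / 2)‖ := norm_pos_iff.mpr hs1n
    have hb : 0 < ‖Complex.sinh (θ * z / 2)‖ := norm_pos_iff.mpr hs2n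
    apply one_div_le_one_div_of_le (by positivity)
    calc 4 * ‖Complex.sinh (z / 2)‖ * ‖Complex.sinh (θ * z / 2)‖
        ≤ 4 * δ * ((θ + 2 * Real.pi) * δ) := by gcongr
      _ = K1 * δ ^ 2 := by rw [hK1]; ring
  have hup : ‖1 / ((θ : ℂ) * z ^ 2)‖ ≤ 1 / θ := by
    rw [norm_div, norm_one, norm_mul, norm_pow, Complex.norm_real, Real.norm_eq_abs,
      abs_of_pos hθ]
    apply one_div_le_one_div_of_le hθ
    exact le_mul_of_one_le_right hθ.le (one_le_pow₀ hz1)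
  have htri : 1 / (K1 * δ ^ 2) ≤ C * ‖z‖ ^ (3 / 4 : ℝ) * δ ^ (-(7 / 4) : ℝ) + 1 / θ := by
    have h1 := norm_sub_norm_le (1 / (4 * Complex.sinh (z / 2) * Complex.sinh (θ * z / 2)))
      (1 / ((θ : ℂ) * z ^ 2))
    linarith
  -- powers of k
  have e1 : 1 / (K1 * δ ^ 2) = (k : ℝ) ^ 8 / K1 := by
    rw [hδ]; field_simp
  have e2 : δ ^ (-(7 / 4) : ℝ) = (k : ℝ) ^ 7 := by
    have h1 : δ = (k : ℝ) ^ (-4 : ℝ) := by
      have h4 : (k : ℝ) ^ (4 : ℝ) = (k : ℝ) ^ (4 : ℕ) := by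
        exact_mod_cast Real.rpow_natCast (k : ℝ) 4
      rw [hδ, Real.rpow_neg hkp.le, one_div, h4]
    rw [h1, ← Real.rpow_mul hkp.le, ← Real.rpow_natCast]
    norm_num
  have e3 : ‖z‖ ^ (3 / 4 : ℝ) ≤ 8 * (k : ℝ) ^ (3 / 4 : ℝ) := by
    calc ‖z‖ ^ (3 / 4 : ℝ) ≤ (8 * (k : ℝ)) ^ (3 / 4 : ℝ) :=
          Real.rpow_le_rpow (norm_nonneg _) hz8 (by norm_num)
      _ = (8 : ℝ) ^ (3 / 4 : ℝ) * (k : ℝ) ^ (3 / 4 : ℝ) := Real.mul_rpow (by norm_num) hkp.le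
      _ ≤ (8 : ℝ) ^ (1 : ℝ) * (k : ℝ) ^ (3 / 4 : ℝ) := by
          gcongr
          · norm_num
          · norm_num
      _ = 8 * (k : ℝ) ^ (3 / 4 : ℝ) := by rw [Real.rpow_one]
  set a : ℝ := (k : ℝ) ^ (3 / 4 : ℝ) with ha
  set b : ℝ := (k : ℝ) ^ (1 / 4 : ℝ) with hb
  have ha1 : 1 ≤ a := Real.one_le_rpow hk1 (by norm_num)
  have hab : a * b = k := by
    rw [ha, hb, ← Real.rpow_add hkp]; norm_num
  have hb4 : b ^ 4 = k := by
    rw [hb, ← Real.rpow_natCast, ← Real.rpow_mul hkp.le]; norm_num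
  have hb0 : 0 ≤ b := by positivity
  rw [e1, e2] at htri
  have h7 : (1 : ℝ) ≤ (k : ℝ) ^ 7 := one_le_pow₀ hk1
  have h8 : (k : ℝ) ^ 8 / K1 ≤ (8 * |C| + 1 / θ) * (a * (k : ℝ) ^ 7) := by
    refine htri.trans ?_
    have g1 : C * ‖z‖ ^ (3 / 4 : ℝ) * (k : ℝ) ^ 7 ≤ |C| * (8 * a) * (k : ℝ) ^ 7 := by
      gcongr
      exact le_abs_self C
    have g2 : 1 / θ ≤ 1 / θ * (a * (k : ℝ) ^ 7) :=
      le_mul_of_one_le_right (by positivity) (one_le_mul_of_one_le_of_one_le ha1 h7)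
    calc _ ≤ |C| * (8 * a) * (k : ℝ) ^ 7 + 1 / θ * (a * (k : ℝ) ^ 7) := add_le_add g1 g2
      _ = _ := by ring
  rw [div_le_iff₀ hK1p] at h8
  have h9 : b * (a * (k : ℝ) ^ 7) ≤ M * (a * (k : ℝ) ^ 7) := by
    calc b * (a * (k : ℝ) ^ 7) = (a * b) * (k : ℝ) ^ 7 := by ring
      _ = (k : ℝ) ^ 8 := by rw [hab]; ring
      _ ≤ _ := h8
      _ = M * (a * (k : ℝ) ^ 7) := by rw [hM]; ring
  have h10 : b ≤ M := le_of_mul_le_mul_right h9 (by positivity)
  have h11 : (k : ℝ) ≤ M ^ 4 := by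
    rw [← hb4]; gcongr
  linarith

end Pool.Agent.TH713.BZ
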