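import Mathlib
set_option autoImplicit false
open MeasureTheory Filter Topology Set
namespace Pool.Agent.TH713.BZ

namespace Derivs

/-- `sinh z / z`, continued by `1` at the origin. -/
noncomputable def S : ℂ → ℂ := dslope Complex.sinh 0

lemma S_zero : S 0 = 1 := by
  simp [S, dslope_same]

lemma S_of_ne {z : ℂ} (hz : z ≠ 0) : S z = Complex.sinh z / z := by
  rw [S, dslope_of_ne _ hz, slope_def_field]; simp

lemma S_diff : Differentiable ℂ S := by
  have h := (Complex.differentiableOn_dslope (s := univ) (f := Complex.sinh) (c := 0)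
    univ_mem).2 Complex.differentiable_sinh.differentiableOn
  exact differentiableOn_univ.1 h

lemma S_neg (z : ℂ) : S (-z) = S z := by
  by_cases hz : z = 0
  · simp [hz]
  · rw [S_of_ne (neg_ne_zero.2 hz), S_of_ne hz, Complex.sinh_neg, neg_div_neg_eq]

lemma normSq_sinh (x y : ℝ) :
    Complex.normSq (Complex.sinh (x + y * Complex.I)) = Real.sinh x ^ 2 + Real.sin y ^ 2 := by
  have h : Complex.sinh (x + y * Complex.I) =
      ((Real.sinh x * Real.cos y : ℝ) : ℂ) + ((Real.cosh x * Real.sin y : ℝ) : ℂ) * Complex.I := by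
    rw [Complex.sinh_add, Complex.sinh_mul_I, Complex.cosh_mul_I]; push_cast; ring
  rw [h, Complex.normSq_add_mul_I]
  have h1 := Real.cosh_sq x
  have h2 := Real.sin_sq_add_cos_sq y
  have h3 : Real.cos y ^ 2 = 1 - Real.sin y ^ 2 := by linarith
  rw [mul_pow, mul_pow, h1, h3]; ring

lemma norm_sinh_sq (w : ℂ) :
    ‖Complex.sinh w‖ ^ 2 = Real.sinh w.re ^ 2 + Real.sin w.im ^ 2 := by
  rw [← Complex.normSq_eq_norm_sq, ← normSq_sinh, Complex.re_add_im]

lemma norm_sinh_ge1 {w : ℂ} (h : |w.im| ≤ Real.pi / 2) :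
    2 / Real.pi * ‖w‖ ≤ ‖Complex.sinh w‖ := by
  have hpi := Real.pi_gt_three
  have h0 : 0 ≤ 2 / Real.pi := by positivity
  have h1 : 2 / Real.pi ≤ 1 := by rw [div_le_one (by positivity)]; linarith
  refine le_of_sq_le_sq ?_ (norm_nonneg _)
  rw [norm_sinh_sq, mul_pow, ← Complex.normSq_eq_norm_sq, Complex.normSq_apply]
  have h2 : 2 / Real.pi * |w.im| ≤ |Real.sin w.im| := Real.mul_abs_le_abs_sin h
  have h3 : |w.re| ≤ |Real.sinh w.re| := by
    rw [Real.abs_sinh]; exact Real.self_le_sinh_iff.2 (abs_nonneg _)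
  have h4 : (2 / Real.pi * |w.im|) ^ 2 ≤ |Real.sin w.im| ^ 2 :=
    pow_le_pow_left₀ (by positivity) h2 2
  have h5 : |w.re| ^ 2 ≤ |Real.sinh w.re| ^ 2 := pow_le_pow_left₀ (abs_nonneg _) h3 2
  rw [mul_pow, sq_abs, sq_abs] at h4
  rw [sq_abs, sq_abs] at h5
  have h6 : (2 / Real.pi) ^ 2 ≤ 1 := pow_le_one₀ h0 h1
  nlinarith [mul_nonneg (sub_nonneg.2 h6) (sq_nonneg w.re)]

lemma norm_sinh_ge2 (w : ℂ) : |Real.sinh w.re| ≤ ‖Complex.sinh w‖ := by
  refine abs_le_of_sq_le_sq ?_ (norm_nonneg _)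
  rw [norm_sinh_sq]
  nlinarith [sq_nonneg (Real.sin w.im)]

lemma S_ge {w : ℂ} (h : |w.im| ≤ Real.pi / 2) : 1 / 10 * Real.exp (w.re / 2) ≤ ‖S w‖ := by
  have hpi := Real.pi_gt_three
  have hpi2 := Real.pi_lt_d2
  have he := Real.exp_one_lt_d9
  have he' := Real.exp_one_gt_d9
  rcases le_or_gt w.re 1 with hx | hx
  · have h1 : Real.exp (w.re / 2) ≤ Real.exp 1 := Real.exp_le_exp.2 (by linarith)
    have h2 : (2 : ℝ) / Real.pi ≤ ‖S w‖ := by
      by_cases hw : w = 0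
      · rw [hw, S_zero, norm_one, div_le_one (by positivity)]; linarith
      · rw [S_of_ne hw, norm_div, le_div_iff₀ (norm_pos_iff.2 hw)]
        exact norm_sinh_ge1 h
    have h3 : (1 : ℝ) / 2 ≤ 2 / Real.pi := by
      rw [div_le_div_iff₀ (by norm_num) (by positivity)]; linarith
    linarith
  · have hw : w ≠ 0 := by
      rintro rfl; simp at hx; linarith
    have hn : ‖w‖ ≤ w.re + 2 := by
      refine (Complex.norm_le_abs_re_add_abs_im w).trans ?_
      rw [abs_of_pos (by linarith : 0 < w.re)]; linarith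
    rw [S_of_ne hw, norm_div, le_div_iff₀ (norm_pos_iff.2 hw)]
    have h1 := norm_sinh_ge2 w
    have h2 : Real.sinh w.re ≤ ‖Complex.sinh w‖ := (le_abs_self _).trans h1
    refine le_trans ?_ h2
    have h3 : w.re / 2 + 1 ≤ Real.exp (w.re / 2) := Real.add_one_le_exp _
    have h4 : Real.exp (w.re / 2) ^ 2 = Real.exp w.re := by
      rw [← Real.exp_nat_mul]; congr 1; push_cast; ring
    have h5 : Real.exp 1 ≤ Real.exp w.re := Real.exp_le_exp.2 hx.le
    have h6 : Real.exp (-w.re) ≤ 1 := by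
      rw [← Real.exp_zero]; exact Real.exp_le_exp.2 (by linarith)
    rw [Real.sinh_eq]
    have h7 : 1 / 10 * Real.exp (w.re / 2) * ‖w‖ ≤
        1 / 10 * Real.exp (w.re / 2) * (2 * Real.exp (w.re / 2)) := by
      refine mul_le_mul_of_nonneg_left ?_ (by positivity)
      linarith
    refine h7.trans ?_
    nlinarith

/-- The holomorphic function `z^2 / (4 sinh (z/2) sinh (θ z/2))`. -/
noncomputable def H (θ : ℝ) (z : ℂ) : ℂ := ((θ : ℂ) * S (z / 2) * S ((θ : ℂ) * z / 2))⁻¹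

lemma H_zero (θ : ℝ) : H θ 0 = 1 / (θ : ℂ) := by
  simp [H, S_zero]

lemma H_neg (θ : ℝ) (z : ℂ) : H θ (-z) = H θ z := by
  unfold H
  rw [show -z / 2 = -(z / 2) by ring, show (θ : ℂ) * -z / 2 = -((θ : ℂ) * z / 2) by ring,
    S_neg, S_neg]

lemma H_pos {θ : ℝ} (hθ : 0 < θ) {x : ℝ} (hx : 0 < x) :
    H θ x = (x : ℂ) ^ 2 / (4 * Complex.sinh (x / 2) * Complex.sinh (θ * x / 2)) := by
  have h1 : (x : ℂ) ≠ 0 := by exact_mod_cast hx.ne'
  have h2 : (θ : ℂ) ≠ 0 := by exact_mod_cast hθ.ne'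
  unfold H
  rw [S_of_ne (div_ne_zero h1 two_ne_zero), S_of_ne (div_ne_zero (mul_ne_zero h2 h1) two_ne_zero)]
  have h3 : Complex.sinh ((x : ℂ) / 2) ≠ 0 := by
    have : Complex.sinh ((x : ℂ) / 2) = ((Real.sinh (x / 2) : ℝ) : ℂ) := by push_cast; rfl
    rw [this]
    exact_mod_cast (Real.sinh_pos_iff.2 (by positivity)).ne'
  have h4 : Complex.sinh ((θ : ℂ) * x / 2) ≠ 0 := by
    have : Complex.sinh ((θ : ℂ) * x / 2) = ((Real.sinh (θ * x / 2) : ℝ) : ℂ) := by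
      push_cast; rfl
    rw [this]
    exact_mod_cast (Real.sinh_pos_iff.2 (by positivity)).ne'
  field_simp
  ring

lemma im_half {z : ℂ} : (z / 2).im = z.im / 2 := by
  simp

lemma re_half {z : ℂ} : (z / 2).re = z.re / 2 := by
  simp

lemma im_thalf {θ : ℝ} {z : ℂ} : ((θ : ℂ) * z / 2).im = θ * z.im / 2 := by
  rw [im_half, Complex.im_ofReal_mul]

lemma re_thalf {θ : ℝ} {z : ℂ} : ((θ : ℂ) * z / 2).re = θ * z.re / 2 := by
  rw [re_half, Complex.re_ofReal_mul]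

/-- The half width of the strip. -/
noncomputable def b (θ : ℝ) : ℝ := min 1 (1 / θ)

lemma b_pos {θ : ℝ} (hθ : 0 < θ) : 0 < b θ := lt_min one_pos (by positivity)

lemma im_bounds {θ : ℝ} (hθ : 0 < θ) {z : ℂ} (hz : |z.im| ≤ b θ) :
    |(z / 2).im| ≤ Real.pi / 2 ∧ |((θ : ℂ) * z / 2).im| ≤ Real.pi / 2 := by
  have hpi := Real.pi_gt_three
  have h1 : |z.im| ≤ 1 := hz.trans (min_le_left _ _)
  have h2 : |z.im| ≤ 1 / θ := hz.trans (min_le_right _ _)
  have h3 : θ * |z.im| ≤ 1 := by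
    calc θ * |z.im| ≤ θ * (1 / θ) := mul_le_mul_of_nonneg_left h2 hθ.le
      _ = 1 := by field_simp
  rw [im_half, im_thalf, abs_div, abs_div, abs_mul, abs_of_pos hθ, abs_two]
  constructor <;> linarith

lemma norm_H_le {θ : ℝ} (hθ : 0 < θ) {z : ℂ} (hz : |z.im| ≤ b θ) :
    ‖H θ z‖ ≤ 100 / θ * Real.exp (-((1 + θ) / 4) * z.re) := by
  obtain ⟨h1, h2⟩ := im_bounds hθ hz
  have h3 := S_ge h1
  have h4 := S_ge h2
  rw [re_half] at h3
  rw [re_thalf] at h4
  unfold H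
  rw [norm_inv, norm_mul, norm_mul, Complex.norm_real, Real.norm_of_nonneg hθ.le]
  have h5 : 100 / θ * Real.exp (-((1 + θ) / 4) * z.re) =
      (θ * (1 / 10 * Real.exp (z.re / 2 / 2)) * (1 / 10 * Real.exp (θ * z.re / 2 / 2)))⁻¹ := by
    have h6 : Real.exp (-((1 + θ) / 4) * z.re) =
        (Real.exp (z.re / 2 / 2) * Real.exp (θ * z.re / 2 / 2))⁻¹ := by
      rw [← Real.exp_add, ← Real.exp_neg]; congr 1; ring
    rw [h6]
    have h7 := (Real.exp_pos (z.re / 2 / 2)).ne'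
    have h8 := (Real.exp_pos (θ * z.re / 2 / 2)).ne'
    field_simp
    norm_num
  rw [h5]
  refine inv_anti₀ (by positivity) ?_
  exact mul_le_mul (mul_le_mul_of_nonneg_left h3 hθ.le) h4 (by positivity) (by positivity)

lemma H_diffAt {θ : ℝ} (hθ : 0 < θ) {z : ℂ} (hz : |z.im| ≤ b θ) :
    DifferentiableAt ℂ (H θ) z := by
  obtain ⟨h1, h2⟩ := im_bounds hθ hz
  have h3 := S_ge h1
  have h4 := S_ge h2
  have e1 : S (z / 2) ≠ 0 := norm_pos_iff.1 (lt_of_lt_of_le (by positivity) h3)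
  have e2 : S ((θ : ℂ) * z / 2) ≠ 0 := norm_pos_iff.1 (lt_of_lt_of_le (by positivity) h4)
  have e3 : (θ : ℂ) ≠ 0 := by exact_mod_cast hθ.ne'
  have d1 : DifferentiableAt ℂ (fun z : ℂ => S (z / 2)) z :=
    (S_diff (z / 2)).comp z (differentiableAt_id.div_const 2)
  have d2 : DifferentiableAt ℂ (fun z : ℂ => S ((θ : ℂ) * z / 2)) z :=
    (S_diff ((θ : ℂ) * z / 2)).comp z ((differentiableAt_id.const_mul (θ : ℂ)).div_const 2)
  exact ((d1.const_mul (θ : ℂ)).mul d2).inv (mul_ne_zero (mul_ne_zero e3 e1) e2)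

lemma strip_mem {θ : ℝ} (_hθ : 0 < θ) {x : ℝ} {z : ℂ} (hz : ‖z - x‖ ≤ b θ / 2) :
    |z.im| ≤ b θ / 2 ∧ x - b θ / 2 ≤ z.re := by
  have h1 := (Complex.abs_im_le_norm (z - x)).trans hz
  have h2 := (Complex.abs_re_le_norm (z - x)).trans hz
  simp only [Complex.sub_im, Complex.ofReal_im, sub_zero] at h1
  simp only [Complex.sub_re, Complex.ofReal_re] at h2
  exact ⟨h1, by linarith [(abs_le.1 h2).1]⟩

lemma H_analytic {θ : ℝ} (hθ : 0 < θ) (x : ℝ) : AnalyticAt ℂ (H θ) (x : ℂ) := by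
  have hb := b_pos hθ
  have h : DifferentiableOn ℂ (H θ) (Metric.ball (x : ℂ) (b θ / 2)) := by
    intro z hz
    rw [Metric.mem_ball, dist_eq_norm] at hz
    exact (H_diffAt hθ ((strip_mem hθ hz.le).1.trans (by linarith))).differentiableWithinAt
  exact h.analyticAt (Metric.ball_mem_nhds _ (by positivity))

/-- The derivatives along the real axis. -/
noncomputable def h (θ : ℝ) (n : ℕ) (x : ℝ) : ℂ := iteratedDeriv n (H θ) (x : ℂ)

lemma h_deriv {θ : ℝ} (hθ : 0 < θ) (n : ℕ) (x : ℝ) : HasDerivAt (h θ n) (h θ (n + 1) x) x := by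
  have h1 : AnalyticAt ℂ (iteratedDeriv n (H θ)) (x : ℂ) := by
    rw [iteratedDeriv_eq_iterate]; exact (H_analytic hθ x).iterated_deriv n
  have h2 : HasDerivAt (iteratedDeriv n (H θ)) (iteratedDeriv (n + 1) (H θ) (x : ℂ)) (x : ℂ) := by
    rw [iteratedDeriv_succ]; exact h1.differentiableAt.hasDerivAt
  exact h2.comp_ofReal

lemma h_bound {θ : ℝ} (hθ : 0 < θ) (n : ℕ) :
    ∃ C : ℝ, ∀ x : ℝ, ‖h θ n x‖ ≤ C * Real.exp (-((1 + θ) / 4) * x) := by
  have hb := b_pos hθ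
  set R : ℝ := b θ / 2 with hR
  have hR0 : 0 < R := by positivity
  refine ⟨n.factorial * (100 / θ * Real.exp ((1 + θ) / 4 * R)) / R ^ n, fun x => ?_⟩
  have h1 : DiffContOnCl ℂ (H θ) (Metric.ball (x : ℂ) R) := by
    refine DifferentiableOn.diffContOnCl fun z hz => ?_
    have hz' : z ∈ Metric.closedBall (x : ℂ) R := Metric.closure_ball_subset_closedBall hz
    rw [Metric.mem_closedBall, dist_eq_norm] at hz'
    exact (H_diffAt hθ ((strip_mem hθ hz').1.trans (by linarith))).differentiableWithinAt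
  have h2 : ∀ z ∈ Metric.sphere (x : ℂ) R,
      ‖H θ z‖ ≤ 100 / θ * Real.exp ((1 + θ) / 4 * R) * Real.exp (-((1 + θ) / 4) * x) := by
    intro z hz
    rw [Metric.mem_sphere, dist_eq_norm] at hz
    obtain ⟨h3, h4⟩ := strip_mem hθ hz.le
    refine (norm_H_le hθ (h3.trans (by linarith))).trans ?_
    rw [mul_assoc, ← Real.exp_add]
    refine mul_le_mul_of_nonneg_left (Real.exp_le_exp.2 ?_) (by positivity)
    have h5 : 0 < (1 + θ) / 4 := by positivity
    nlinarith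
  have h3 := Complex.norm_iteratedDeriv_le_of_forall_mem_sphere_norm_le n hR0 h1 h2
  refine h3.trans (le_of_eq ?_)
  ring

lemma h_one_zero {θ : ℝ} : h θ 1 0 = 0 := by
  have h1 : deriv (H θ) 0 = - deriv (H θ) 0 := by
    have h2 : (fun z => H θ (-z)) = H θ := funext fun z => H_neg θ z
    have h3 : deriv (fun z => H θ (-z)) 0 = - deriv (H θ) (-0) := deriv_comp_neg _ _
    rw [h2, neg_zero] at h3
    exact h3
  have h4 : deriv (H θ) 0 = 0 := self_eq_neg.1 h1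
  simpa [h, iteratedDeriv_one] using h4

end Derivs

theorem derivs (θ : ℝ) (hθ : 0 < θ) :
    ∃ (h : ℕ → ℝ → ℂ) (c : ℝ), 0 < c ∧
      (∀ n, ∀ x : ℝ, 0 < x → HasDerivAt (h n) (h (n + 1) x) x) ∧
      (∀ n, ∃ C : ℝ, ∀ x : ℝ, 0 < x → ‖h n x‖ ≤ C * Real.exp (-c * x)) ∧
      (∀ x : ℝ, 0 < x → h 0 x = (x : ℂ) ^ 2 / (4 * Complex.sinh (x / 2) * Complex.sinh (θ * x / 2))) ∧
      ∃ K : ℝ, ∀ x : ℝ, 0 < x → x ≤ 1 → ‖h 0 x - 1 / (θ : ℂ)‖ ≤ K * x ^ 2 ∧ ‖h 1 x‖ ≤ K * x := by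
  refine ⟨Derivs.h θ, (1 + θ) / 4, by positivity, fun n x _ => Derivs.h_deriv hθ n x, ?_, ?_, ?_⟩
  · intro n
    obtain ⟨C, hC⟩ := Derivs.h_bound hθ n
    exact ⟨C, fun x _ => hC x⟩
  · intro x hx
    rw [← Derivs.H_pos hθ hx]
    simp [Derivs.h]
  · obtain ⟨C, hC⟩ := Derivs.h_bound hθ 2
    have hC0 : 0 ≤ C := by
      have h1 := (norm_nonneg _).trans (hC 0)
      simpa using h1
    have hC2 : ∀ t : ℝ, 0 ≤ t → ‖Derivs.h θ 2 t‖ ≤ C := by
      intro t ht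
      refine (hC t).trans ?_
      have h1 : Real.exp (-((1 + θ) / 4) * t) ≤ 1 := by
        refine Real.exp_le_one_iff.2 ?_
        have : 0 ≤ (1 + θ) / 4 * t := by positivity
        linarith
      nlinarith
    have h1x : ∀ x : ℝ, 0 ≤ x → ‖Derivs.h θ 1 x‖ ≤ C * x := by
      intro x hx
      have h2 := norm_image_sub_le_of_norm_deriv_le_segment' (a := 0) (b := x)
        (f := Derivs.h θ 1) (f' := Derivs.h θ 2) (C := C)
        (fun t _ => (Derivs.h_deriv hθ 1 t).hasDerivWithinAt)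
        (fun t ht => hC2 t ht.1) x ⟨hx, le_rfl⟩
      rwa [Derivs.h_one_zero, sub_zero, sub_zero] at h2
    refine ⟨C, fun x hx _ => ⟨?_, h1x x hx.le⟩⟩
    have h2 := norm_image_sub_le_of_norm_deriv_le_segment' (a := 0) (b := x)
        (f := Derivs.h θ 0) (f' := Derivs.h θ 1) (C := C * x)
        (fun t _ => (Derivs.h_deriv hθ 0 t).hasDerivWithinAt)
        (fun t ht => (h1x t ht.1).trans (mul_le_mul_of_nonneg_left ht.2.le hC0)) x ⟨hx.le, le_rfl⟩
    have h3 : Derivs.h θ 0 0 = 1 / (θ : ℂ) := by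
      simp only [Derivs.h, iteratedDeriv_zero, Complex.ofReal_zero, Derivs.H_zero]
    rw [h3, sub_zero] at h2
    refine h2.trans (le_of_eq ?_)
    ring

end Pool.Agent.TH713.BZ
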