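import Mathlib
set_option autoImplicit false
open MeasureTheory Filter Topology Set
namespace Pool.Agent.TH713.BZ

namespace Dir

/-- the frequencies -/
noncomputable def pp (θ : ℝ) (m : ℕ × ℕ) : ℝ := (1 + θ) / 2 + (m.1 + m.2 * θ)

lemma pp_lower (θ : ℝ) (hθ : 0 < θ) (m : ℕ × ℕ) :
    Real.sqrt (θ * ((1 + m.1) * (1 + m.2))) ≤ pp θ m := by
  have h1 : (0 : ℝ) ≤ m.1 := Nat.cast_nonneg _
  have h2 : (0 : ℝ) ≤ m.2 := Nat.cast_nonneg _
  have h3 : (0 : ℝ) ≤ m.2 * θ := by positivity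
  rw [Real.sqrt_le_left (by unfold pp; positivity)]
  unfold pp
  nlinarith [sq_nonneg ((1 + (m.1 : ℝ)) / 2 - θ * (1 + m.2) / 2), mul_nonneg h1 h3,
    mul_nonneg h1 h1, mul_nonneg h3 h3]

lemma pp_pos (θ : ℝ) (hθ : 0 < θ) (m : ℕ × ℕ) : 0 < pp θ m := by
  unfold pp
  positivity

lemma summ (θ : ℝ) (hθ : 0 < θ) (σ : ℝ) (hσ : 2 < σ) :
    Summable fun m : ℕ × ℕ => 1 / (pp θ m) ^ σ := by
  have h0 : Summable fun n : ℕ => 1 / ((1 : ℝ) + n) ^ (σ / 2) := by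
    have := (Real.summable_one_div_nat_add_rpow 1 (σ / 2)).2 (by linarith)
    refine this.congr fun n => ?_
    rw [add_comm (n : ℝ) 1, abs_of_nonneg (by positivity)]
  have h1 : Summable fun m : ℕ × ℕ =>
      (1 / ((1 : ℝ) + m.1) ^ (σ / 2)) * (1 / ((1 : ℝ) + m.2) ^ (σ / 2)) :=
    h0.mul_of_nonneg h0 (fun n => by positivity) (fun n => by positivity)
  refine Summable.of_nonneg_of_le (fun m => ?_) (fun m => ?_) (h1.mul_left (1 / θ ^ (σ / 2)))
  · have := pp_pos θ hθ m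
    positivity
  · have h2 := pp_lower θ hθ m
    have h3 : (0 : ℝ) < θ * ((1 + m.1) * (1 + m.2)) := by positivity
    have h4 : (θ * ((1 + (m.1 : ℝ)) * (1 + m.2))) ^ (σ / 2) ≤ (pp θ m) ^ σ := by
      calc (θ * ((1 + (m.1 : ℝ)) * (1 + m.2))) ^ (σ / 2)
          = (Real.sqrt (θ * ((1 + m.1) * (1 + m.2)))) ^ σ := by
            rw [Real.sqrt_eq_rpow, ← Real.rpow_mul h3.le]
            congr 1
            ring
        _ ≤ (pp θ m) ^ σ := Real.rpow_le_rpow (Real.sqrt_nonneg _) h2 (by linarith)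
    rw [Real.mul_rpow hθ.le (by positivity), Real.mul_rpow (by positivity) (by positivity)] at h4
    have h5 : (0 : ℝ) < θ ^ (σ / 2) * ((1 + (m.1 : ℝ)) ^ (σ / 2) * (1 + (m.2 : ℝ)) ^ (σ / 2)) := by
      positivity
    refine (one_div_le_one_div_of_le h5 h4).trans (le_of_eq ?_)
    rw [one_div_mul_one_div, one_div_mul_one_div]

lemma geo (u : ℝ) (hu : 0 < u) :
    HasSum (fun n : ℕ => Real.exp (-u) ^ n) (1 - Real.exp (-u))⁻¹ :=
  hasSum_geometric_of_lt_one (Real.exp_nonneg _) (by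
    rw [Real.exp_lt_one_iff]
    linarith)

lemma ident (θ t : ℝ) (hθ : 0 < θ) (ht : 0 < t) :
    Real.exp (-((1 + θ) / 2) * t) * ((1 - Real.exp (-t))⁻¹ * (1 - Real.exp (-(θ * t)))⁻¹) =
      1 / (4 * Real.sinh (t / 2) * Real.sinh (θ * t / 2)) := by
  have key : ∀ u : ℝ, 0 < u → 2 * Real.sinh (u / 2) = Real.exp (u / 2) * (1 - Real.exp (-u)) := by
    intro u _
    rw [Real.sinh_eq, mul_sub, ← Real.exp_add, mul_one]
    have : u / 2 + -u = -(u / 2) := by ring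
    rw [this]
    ring
  have h1 := key t ht
  have h2 := key (θ * t) (by positivity)
  have h3 : 0 < 1 - Real.exp (-t) := by
    rw [sub_pos, Real.exp_lt_one_iff]; linarith
  have h4 : 0 < 1 - Real.exp (-(θ * t)) := by
    rw [sub_pos, Real.exp_lt_one_iff]
    have : 0 < θ * t := by positivity
    linarith
  have h5 : 4 * Real.sinh (t / 2) * Real.sinh (θ * t / 2) =
      Real.exp (t / 2) * (1 - Real.exp (-t)) * (Real.exp (θ * t / 2) * (1 - Real.exp (-(θ * t)))) := by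
    rw [← h1, ← h2]; ring
  rw [h5]
  have h6 : Real.exp (-((1 + θ) / 2) * t) = (Real.exp (t / 2))⁻¹ * (Real.exp (θ * t / 2))⁻¹ := by
    rw [← Real.exp_neg, ← Real.exp_neg, ← Real.exp_add]
    congr 1
    ring
  rw [h6]
  have e1 := Real.exp_ne_zero (t / 2)
  have e2 := Real.exp_ne_zero (θ * t / 2)
  field_simp

lemma hasSum_exp (θ t : ℝ) (hθ : 0 < θ) (ht : 0 < t) :
    HasSum (fun m : ℕ × ℕ => Real.exp (-pp θ m * t))
      (1 / (4 * Real.sinh (t / 2) * Real.sinh (θ * t / 2))) := by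
  have h1 := geo t ht
  have h2 := geo (θ * t) (by positivity)
  have h3 : Summable fun m : ℕ × ℕ => Real.exp (-t) ^ m.1 * Real.exp (-(θ * t)) ^ m.2 :=
    h1.summable.mul_of_nonneg h2.summable (fun n => by positivity) (fun n => by positivity)
  have h4 := (h1.mul h2 h3).mul_left (Real.exp (-((1 + θ) / 2) * t))
  rw [ident θ t hθ ht] at h4
  have h5 : (fun m : ℕ × ℕ => Real.exp (-pp θ m * t)) = fun m : ℕ × ℕ =>
      Real.exp (-((1 + θ) / 2) * t) * (Real.exp (-t) ^ m.1 * Real.exp (-(θ * t)) ^ m.2) := by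
    funext m
    rw [← Real.exp_nat_mul, ← Real.exp_nat_mul, ← Real.exp_add, ← Real.exp_add]
    congr 1
    unfold pp
    ring
  rw [h5]
  exact h4

end Dir

theorem dir (θ : ℝ) (hθ : 0 < θ) (s : ℂ) (hs : 2 < s.re) :
    mellin (fun x : ℝ => 1 / (4 * Complex.sinh (x / 2) * Complex.sinh (θ * x / 2))) s =
      Complex.Gamma s * ∑' m : Fin 2 → ℕ,
        ((((1 + θ) / 2 + ∑ j, (m j : ℝ) * (![1, θ] : Fin 2 → ℝ) j : ℝ) : ℂ) ^ (-s)) := by
  have h := hasSum_mellin (ι := ℕ × ℕ) (a := fun _ => 1) (p := Dir.pp θ)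
    (F := fun x : ℝ => 1 / (4 * Complex.sinh (x / 2) * Complex.sinh (θ * x / 2))) (s := s)
    (fun m => Or.inr (Dir.pp_pos θ hθ m)) (by linarith) (fun t ht => by
      have h1 := Dir.hasSum_exp θ t hθ ht
      have h2 := Complex.hasSum_ofReal.2 h1
      have h3 : ((1 / (4 * Real.sinh (t / 2) * Real.sinh (θ * t / 2)) : ℝ) : ℂ) =
          1 / (4 * Complex.sinh (t / 2) * Complex.sinh (θ * t / 2)) := by
        push_cast
        rfl
      rw [h3] at h2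
      simpa using h2) (by simpa using Dir.summ θ hθ s.re hs)
  rw [← h.tsum_eq]
  have h4 : (∑' m : Fin 2 → ℕ,
        ((((1 + θ) / 2 + ∑ j, (m j : ℝ) * (![1, θ] : Fin 2 → ℝ) j : ℝ) : ℂ) ^ (-s))) =
      ∑' m : ℕ × ℕ, ((Dir.pp θ m : ℝ) : ℂ) ^ (-s) := by
    rw [← (finTwoArrowEquiv ℕ).tsum_eq (fun m : ℕ × ℕ => ((Dir.pp θ m : ℝ) : ℂ) ^ (-s))]
    refine tsum_congr fun m => ?_
    congr 2
    simp [Dir.pp, Fin.sum_univ_two, finTwoArrowEquiv]
  rw [h4, ← tsum_mul_left]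
  refine tsum_congr fun m => ?_
  rw [Complex.cpow_neg]
  ring

end Pool.Agent.TH713.BZ
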