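import Mathlib

/-!
# The size of the gamma function on the line `Re s = 1`
-/

set_option autoImplicit false

open MeasureTheory Filter Topology Set

namespace Pool.Agent.TH713.BZ

namespace Gam

theorem norm_sq {t : ℝ} (ht : t ≠ 0) :
    ‖Complex.Gamma (1 + t * Complex.I)‖ ^ 2 = Real.pi * t / Real.sinh (Real.pi * t) := by
  have hI : (t : ℂ) * Complex.I ≠ 0 := mul_ne_zero (Complex.ofReal_ne_zero.2 ht) Complex.I_ne_zero
  have h1 : Complex.Gamma (1 + t * Complex.I) = t * Complex.I * Complex.Gamma (t * Complex.I) := by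
    rw [add_comm, Complex.Gamma_add_one _ hI]
  have h2 : (starRingEnd ℂ) (Complex.Gamma (1 + t * Complex.I)) =
      Complex.Gamma (1 - t * Complex.I) := by
    rw [← Complex.Gamma_conj]
    congr 1
    simp [sub_eq_add_neg]
  have h3 : Complex.Gamma (1 + t * Complex.I) * (starRingEnd ℂ) (Complex.Gamma (1 + t * Complex.I)) =
      ((Real.pi * t / Real.sinh (Real.pi * t) : ℝ) : ℂ) := by
    rw [h2, h1, mul_assoc, Complex.Gamma_mul_Gamma_one_sub,
      show (Real.pi : ℂ) * (t * Complex.I) = (Real.pi * t : ℂ) * Complex.I by ring,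
      Complex.sin_mul_I]
    push_cast
    have hs : Complex.sinh ((Real.pi : ℂ) * t) ≠ 0 := by
      have : Real.sinh (Real.pi * t) ≠ 0 := by
        rw [Ne, Real.sinh_eq_zero]
        exact mul_ne_zero Real.pi_ne_zero ht
      have h4 : ((Real.sinh (Real.pi * t) : ℝ) : ℂ) ≠ 0 := Complex.ofReal_ne_zero.2 this
      rwa [Complex.ofReal_sinh, Complex.ofReal_mul] at h4
    field_simp [Complex.I_ne_zero]
  rw [Complex.mul_conj, Complex.normSq_eq_norm_sq] at h3
  exact_mod_cast h3

theorem bound {s : ℝ} (hs : 0 < s) : s / Real.sinh s ≤ (1 + 2 * s) * Real.exp (-s) := by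
  have h1 : 0 < Real.sinh s := Real.sinh_pos_iff.2 hs
  rw [div_le_iff₀ h1, Real.sinh_eq]
  have h2 : 1 + 2 * s ≤ Real.exp (2 * s) := by
    have := Real.add_one_le_exp (2 * s)
    linarith
  have h3 : Real.exp (-s) * Real.exp s = 1 := by rw [← Real.exp_add]; simp
  have h4 : Real.exp (-s) * Real.exp (-s) * Real.exp (2 * s) = 1 := by
    rw [← Real.exp_add, ← Real.exp_add]
    ring_nf
    simp
  have h5 : (1 + 2 * s) * (Real.exp (-s) * Real.exp (-s)) ≤ 1 := by
    have := mul_le_mul_of_nonneg_right h2 (mul_self_nonneg (Real.exp (-s)))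
    calc (1 + 2 * s) * (Real.exp (-s) * Real.exp (-s))
        ≤ Real.exp (2 * s) * (Real.exp (-s) * Real.exp (-s)) := this
      _ = Real.exp (-s) * Real.exp (-s) * Real.exp (2 * s) := by ring
      _ = 1 := h4
  have h6 : (1 + 2 * s) * Real.exp (-s) * ((Real.exp s - Real.exp (-s)) / 2) =
      ((1 + 2 * s) * (Real.exp (-s) * Real.exp s) -
        (1 + 2 * s) * (Real.exp (-s) * Real.exp (-s))) / 2 := by ring
  rw [h6, h3]
  linarith

end Gam

theorem gam : ∃ C : ℝ, ∀ t : ℝ,
    ‖Complex.Gamma (1 + t * Complex.I)‖ ≤ C * Real.sqrt (1 + |t|) * Real.exp (-(Real.pi / 2) * |t|) := by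
  refine ⟨3, fun t => ?_⟩
  by_cases ht : t = 0
  · subst ht
    simp
  have habs : 0 < |t| := abs_pos.2 ht
  have h1 := Gam.norm_sq ht
  have h2 : Real.pi * t / Real.sinh (Real.pi * t) =
      Real.pi * |t| / Real.sinh (Real.pi * |t|) := by
    rcases abs_cases t with ⟨h, -⟩ | ⟨h, -⟩
    · rw [h]
    · rw [h, mul_neg, Real.sinh_neg, neg_div_neg_eq]
  have h3 := Gam.bound (mul_pos Real.pi_pos habs)
  have h4 : 1 + 2 * (Real.pi * |t|) ≤ 9 * (1 + |t|) := by
    have := Real.pi_lt_four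
    nlinarith
  have h5 : ‖Complex.Gamma (1 + t * Complex.I)‖ ^ 2 ≤
      (3 * Real.sqrt (1 + |t|) * Real.exp (-(Real.pi / 2) * |t|)) ^ 2 := by
    have h6 : (3 * Real.sqrt (1 + |t|) * Real.exp (-(Real.pi / 2) * |t|)) ^ 2 =
        9 * (1 + |t|) * Real.exp (-(Real.pi * |t|)) := by
      rw [mul_pow, mul_pow, Real.sq_sqrt (by positivity), ← Real.exp_nat_mul]
      congr 1
      · norm_num
      · congr 1
        push_cast
        ring
    rw [h1, h2, h6]
    exact h3.trans (mul_le_mul_of_nonneg_right h4 (Real.exp_pos _).le)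
  exact le_of_sq_le_sq h5 (by positivity)

end Pool.Agent.TH713.BZ
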