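import Mathlib
set_option autoImplicit false
open MeasureTheory Filter Topology Set
namespace Pool.Agent.TH713.BZ
namespace Inv

/-- The kernel integral, in the variable `v = log z`. -/
noncomputable def K (M : ℝ → ℂ) (v : ℂ) : ℂ :=
  ∫ t : ℝ, Complex.exp (-(1 + t * Complex.I) * v) * M t

theorem norm_exp_kernel (t : ℝ) (v : ℂ) :
    ‖Complex.exp (-(1 + t * Complex.I) * v)‖ = Real.exp (-v.re + t * v.im) := by
  rw [Complex.norm_exp]
  congr 1
  simp

theorem mul_le_abs (t y : ℝ) : t * y ≤ |y| * |t| := by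
  rw [← abs_mul, mul_comm y t]; exact le_abs_self _

theorem integrable_kernel (M : ℝ → ℂ) (hM : AEStronglyMeasurable M)
    (hint : ∀ η : ℝ, 0 < η → η ≤ 1 →
      Integrable (fun t : ℝ => ‖M t‖ * Real.exp ((Real.pi / 2 - η) * |t|)))
    (v : ℂ) (η : ℝ) (hη : 0 < η) (hη1 : η ≤ 1) (hv : |v.im| ≤ Real.pi / 2 - η) :
    Integrable (fun t : ℝ => Complex.exp (-(1 + t * Complex.I) * v) * M t) := by
  refine Integrable.mono' ((hint η hη hη1).const_mul (Real.exp (-v.re))) ?_ ?_
  · exact (Continuous.aestronglyMeasurable (by fun_prop)).mul hM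
  · refine Eventually.of_forall fun t => ?_
    rw [norm_mul, norm_exp_kernel, Real.exp_add]
    have h1 : Real.exp (t * v.im) ≤ Real.exp ((Real.pi / 2 - η) * |t|) := by
      apply Real.exp_le_exp.mpr
      calc t * v.im ≤ |v.im| * |t| := mul_le_abs _ _
        _ ≤ _ := by gcongr
    calc Real.exp (-v.re) * Real.exp (t * v.im) * ‖M t‖
        ≤ Real.exp (-v.re) * Real.exp ((Real.pi / 2 - η) * |t|) * ‖M t‖ := by gcongr
      _ = _ := by ring

theorem norm_one_add_le (t : ℝ) : ‖-(1 + t * Complex.I)‖ ≤ 1 + |t| := by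
  rw [norm_neg]
  calc ‖(1 : ℂ) + t * Complex.I‖ ≤ ‖(1 : ℂ)‖ + ‖(t : ℂ) * Complex.I‖ := norm_add_le _ _
    _ = 1 + |t| := by simp

theorem one_add_le_exp (η t : ℝ) (hη : 0 < η) (hη1 : η ≤ 1) :
    1 + |t| ≤ η⁻¹ * Real.exp (η * |t|) := by
  have h1 : η * |t| + 1 ≤ Real.exp (η * |t|) := Real.add_one_le_exp _
  have h2 : η * (1 + |t|) ≤ Real.exp (η * |t|) := by nlinarith
  rw [inv_mul_eq_div, le_div_iff₀ hη]
  linarith

theorem differentiableAt_K (M : ℝ → ℂ) (hM : AEStronglyMeasurable M)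
    (hint : ∀ η : ℝ, 0 < η → η ≤ 1 →
      Integrable (fun t : ℝ => ‖M t‖ * Real.exp ((Real.pi / 2 - η) * |t|)))
    (v₀ : ℂ) (hv : |v₀.im| < Real.pi / 2) : DifferentiableAt ℂ (K M) v₀ := by
  obtain ⟨η, hη0, hη4, hη2⟩ : ∃ η : ℝ, 0 < η ∧ 4 * η ≤ Real.pi / 2 - |v₀.im| ∧ 2 * η ≤ 1 := by
    refine ⟨min ((Real.pi / 2 - |v₀.im|) / 4) (1 / 2), lt_min (by linarith) (by norm_num), ?_, ?_⟩
    · have := min_le_left ((Real.pi / 2 - |v₀.im|) / 4) (1 / 2)
      linarith
    · have := min_le_right ((Real.pi / 2 - |v₀.im|) / 4) (1 / 2)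
      linarith
  have key := hasDerivAt_integral_of_dominated_loc_of_deriv_le (μ := (volume : Measure ℝ)) (𝕜 := ℂ)
    (F := fun (v : ℂ) (t : ℝ) => Complex.exp (-(1 + t * Complex.I) * v) * M t)
    (F' := fun (v : ℂ) (t : ℝ) =>
      (-(1 + t * Complex.I)) * (Complex.exp (-(1 + t * Complex.I) * v) * M t))
    (x₀ := v₀) (s := Metric.ball v₀ η)
    (bound := fun t => Real.exp (-v₀.re + η) * η⁻¹ *
      (‖M t‖ * Real.exp ((Real.pi / 2 - 2 * η) * |t|)))
    (Metric.ball_mem_nhds _ hη0)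
    (Eventually.of_forall fun v => (Continuous.aestronglyMeasurable (by fun_prop)).mul hM)
    (integrable_kernel M hM hint v₀ η hη0 (by linarith) (by linarith))
    ((Continuous.aestronglyMeasurable (by fun_prop)).mul
      ((Continuous.aestronglyMeasurable (by fun_prop)).mul hM))
    ?_ ?_ ?_
  · exact key.2.differentiableAt
  · refine Eventually.of_forall fun t v hvb => ?_
    have hd : ‖v - v₀‖ < η := by rwa [Metric.mem_ball, dist_eq_norm] at hvb
    have hre : |(v - v₀).re| ≤ ‖v - v₀‖ := Complex.abs_re_le_norm _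
    have him : |(v - v₀).im| ≤ ‖v - v₀‖ := Complex.abs_im_le_norm _
    rw [Complex.sub_re] at hre
    rw [Complex.sub_im] at him
    have hre' : -v.re ≤ -v₀.re + η := by
      have := (abs_le.mp (hre.trans hd.le)).1
      linarith
    have him' : |v.im| ≤ Real.pi / 2 - 3 * η := by
      have h1 : |v.im| ≤ |v₀.im| + |v.im - v₀.im| := by
        have := abs_add_le v₀.im (v.im - v₀.im)
        simpa using this
      linarith [him.trans hd.le]
    rw [norm_mul, norm_mul, norm_exp_kernel, Real.exp_add]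
    have hA : ‖-(1 + t * Complex.I)‖ ≤ η⁻¹ * Real.exp (η * |t|) :=
      (norm_one_add_le t).trans (one_add_le_exp η t hη0 (by linarith))
    have hB : Real.exp (-v.re) ≤ Real.exp (-v₀.re + η) := Real.exp_le_exp.mpr hre'
    have hC : Real.exp (t * v.im) ≤ Real.exp ((Real.pi / 2 - 3 * η) * |t|) := by
      apply Real.exp_le_exp.mpr
      calc t * v.im ≤ |v.im| * |t| := mul_le_abs _ _
        _ ≤ _ := by gcongr
    calc ‖-(1 + t * Complex.I)‖ * (Real.exp (-v.re) * Real.exp (t * v.im) * ‖M t‖)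
        ≤ (η⁻¹ * Real.exp (η * |t|)) *
          (Real.exp (-v₀.re + η) * Real.exp ((Real.pi / 2 - 3 * η) * |t|) * ‖M t‖) := by
          gcongr
      _ = Real.exp (-v₀.re + η) * η⁻¹ *
          (‖M t‖ * (Real.exp (η * |t|) * Real.exp ((Real.pi / 2 - 3 * η) * |t|))) := by ring
      _ = _ := by
          rw [← Real.exp_add]
          congr 4
          ring
  · exact (hint (2 * η) (by linarith) (by linarith)).const_mul _
  · refine Eventually.of_forall fun t v _ => ?_
    have h1 : HasDerivAt (fun v : ℂ => -(1 + t * Complex.I) * v) (-(1 + t * Complex.I)) v := by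
      simpa using (hasDerivAt_id v).const_mul (-(1 + t * Complex.I))
    have h2 := (h1.cexp).mul_const (M t)
    have h3 : (-(1 + t * Complex.I)) * (Complex.exp (-(1 + t * Complex.I) * v) * M t) =
        Complex.exp (-(1 + t * Complex.I) * v) * -(1 + t * Complex.I) * M t := by ring
    simp only [h3]
    exact h2

theorem real_formula (G : ℂ → ℂ) (hG : DifferentiableOn ℂ G {z | 0 < z.re})
    (hM : MellinConvergent (fun x : ℝ => G x) 1)
    (hV : Integrable (fun t : ℝ => mellin (fun x : ℝ => G x) (1 + t * Complex.I)))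
    (x : ℝ) (hx : 0 < x) :
    G x = 1 / (2 * (Real.pi : ℂ)) *
      K (fun t : ℝ => mellin (fun x : ℝ => G x) (1 + t * Complex.I)) (Complex.log x) := by
  have hopen : IsOpen {z : ℂ | 0 < z.re} := isOpen_lt continuous_const Complex.continuous_re
  have hcont : ContinuousAt (fun x : ℝ => G x) x := by
    have h1 : ContinuousAt G (x : ℂ) :=
      (hG.differentiableAt (hopen.mem_nhds (by simpa using hx))).continuousAt
    exact ContinuousAt.comp (f := fun x : ℝ => (x : ℂ)) h1 Complex.continuous_ofReal.continuousAt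
  have h := mellinInv_mellin_eq (1 : ℝ) (fun x : ℝ => G x) hx (by simpa using hM)
    (by simpa [Complex.VerticalIntegrable] using hV) hcont
  have h2 : G x = mellinInv 1 (mellin (fun x : ℝ => G x)) x := h.symm
  rw [h2, mellinInv, K, Complex.real_smul]
  congr 1
  · push_cast
    rfl
  · refine integral_congr_ae (Eventually.of_forall fun t => ?_)
    have hx0 : (x : ℂ) ≠ 0 := Complex.ofReal_ne_zero.mpr hx.ne'
    simp only [smul_eq_mul]
    rw [Complex.cpow_def_of_ne_zero hx0]
    simp only [Complex.ofReal_one]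
    rw [mul_comm (Complex.log (x : ℂ))]

theorem abs_arg_le (z : ℂ) (hz : 0 < z.re) :
    |Complex.arg z| ≤ Real.pi / 2 - z.re / ‖z‖ := by
  have hz0 : z ≠ 0 := by
    rintro rfl
    simp at hz
  have hlt : |Complex.arg z| < Real.pi / 2 := Complex.abs_arg_lt_pi_div_two_iff.mpr (Or.inl hz)
  have hcos : Real.cos (Complex.arg z) = z.re / ‖z‖ := Complex.cos_arg hz0
  have h1 : Real.sin (Real.pi / 2 - |Complex.arg z|) ≤ Real.pi / 2 - |Complex.arg z| :=
    Real.sin_le (by linarith)
  rw [Real.sin_pi_div_two_sub, Real.cos_abs, hcos] at h1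
  linarith

end Inv

theorem inv (G : ℂ → ℂ) (hG : DifferentiableOn ℂ G {z | 0 < z.re})
    (hM : MellinConvergent (fun x : ℝ => G x) 1)
    (hMm : AEStronglyMeasurable (fun t : ℝ => mellin (fun x : ℝ => G x) (1 + t * Complex.I)))
    (hint : ∀ η : ℝ, 0 < η → η ≤ 1 → Integrable (fun t : ℝ =>
      ‖mellin (fun x : ℝ => G x) (1 + t * Complex.I)‖ * Real.exp ((Real.pi / 2 - η) * |t|)))
    (z : ℂ) (hz : 0 < z.re) :
    ‖G z‖ ≤ 1 / (2 * Real.pi) * ‖z‖⁻¹ * ∫ t : ℝ,
      ‖mellin (fun x : ℝ => G x) (1 + t * Complex.I)‖ *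
        Real.exp ((Real.pi / 2 - z.re / ‖z‖) * |t|) := by
  have hπ : (1 : ℝ) < Real.pi / 2 := by linarith [Real.pi_gt_three]
  have hV : Integrable (fun t : ℝ => mellin (fun x : ℝ => G x) (1 + t * Complex.I)) := by
    refine Integrable.mono' (hint 1 one_pos le_rfl) hMm (Eventually.of_forall fun t => ?_)
    have : (1 : ℝ) ≤ Real.exp ((Real.pi / 2 - 1) * |t|) :=
      Real.one_le_exp (mul_nonneg (by linarith) (abs_nonneg _))
    exact le_mul_of_one_le_right (norm_nonneg _) this
  set M : ℝ → ℂ := fun t => mellin (fun x : ℝ => G x) (1 + t * Complex.I) with hMdef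
  have hopen : IsOpen {z : ℂ | 0 < z.re} := isOpen_lt continuous_const Complex.continuous_re
  have hdiff : DifferentiableOn ℂ
      (fun z => 1 / (2 * (Real.pi : ℂ)) * Inv.K M (Complex.log z)) {z | 0 < z.re} := by
    intro w hw
    have hslit : w ∈ Complex.slitPlane := Or.inl hw
    have harg : |(Complex.log w).im| < Real.pi / 2 := by
      rw [Complex.log_im]
      exact Complex.abs_arg_lt_pi_div_two_iff.mpr (Or.inl hw)
    have h1 : DifferentiableAt ℂ (Inv.K M) (Complex.log w) :=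
      Inv.differentiableAt_K M hMm hint _ harg
    have h2 : DifferentiableAt ℂ Complex.log w := (Complex.hasDerivAt_log hslit).differentiableAt
    exact ((h1.comp w h2).const_mul _).differentiableWithinAt
  have hreal : ∀ x : ℝ, 0 < x →
      G x = 1 / (2 * (Real.pi : ℂ)) * Inv.K M (Complex.log x) :=
    fun x hx => Inv.real_formula G hG hM hV x hx
  have heq : EqOn G (fun z => 1 / (2 * (Real.pi : ℂ)) * Inv.K M (Complex.log z))
      {z | 0 < z.re} := by
    refine AnalyticOnNhd.eqOn_of_preconnected_of_frequently_eq (z₀ := ((1 : ℝ) : ℂ))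
      (hG.analyticOnNhd hopen) (hdiff.analyticOnNhd hopen)
      (convex_halfSpace_re_gt 0).isPreconnected (by simp) ?_
    have hmap : Tendsto (fun x : ℝ => (x : ℂ)) (𝓝[≠] (1 : ℝ)) (𝓝[≠] ((1 : ℝ) : ℂ)) := by
      refine tendsto_nhdsWithin_of_tendsto_nhds_of_eventually_within _ ?_ ?_
      · exact (Complex.continuous_ofReal.tendsto 1).mono_left nhdsWithin_le_nhds
      · filter_upwards [self_mem_nhdsWithin] with x hx
        intro hc
        exact hx (Complex.ofReal_injective hc)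
    have hev : ∀ᶠ x : ℝ in 𝓝[≠] (1 : ℝ),
        G x = 1 / (2 * (Real.pi : ℂ)) * Inv.K M (Complex.log x) := by
      have : ∀ᶠ x : ℝ in 𝓝[≠] (1 : ℝ), 0 < x :=
        nhdsWithin_le_nhds (lt_mem_nhds one_pos)
      filter_upwards [this] with x hx using hreal x hx
    exact hmap.frequently hev.frequently
  have hz0 : z ≠ 0 := by
    rintro rfl
    simp at hz
  have hnz : 0 < ‖z‖ := norm_pos_iff.mpr hz0
  have hη0 : 0 < z.re / ‖z‖ := div_pos hz hnz
  have hη1 : z.re / ‖z‖ ≤ 1 := by
    rw [div_le_one hnz]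
    exact (le_abs_self _).trans (Complex.abs_re_le_norm z)
  rw [heq hz]
  simp only
  rw [norm_mul]
  have hc : ‖1 / (2 * (Real.pi : ℂ))‖ = 1 / (2 * Real.pi) := by
    rw [norm_div, norm_mul, Complex.norm_real]
    simp [abs_of_pos Real.pi_pos]
  rw [hc, mul_assoc]
  refine mul_le_mul_of_nonneg_left ?_ (by positivity)
  rw [← integral_const_mul]
  refine norm_integral_le_of_norm_le ((hint _ hη0 hη1).const_mul _)
    (Eventually.of_forall fun t => ?_)
  rw [norm_mul, Inv.norm_exp_kernel, Real.exp_add, Complex.log_re, Complex.log_im,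
    Real.exp_neg, Real.exp_log hnz]
  have h1 : Real.exp (t * Complex.arg z) ≤ Real.exp ((Real.pi / 2 - z.re / ‖z‖) * |t|) := by
    apply Real.exp_le_exp.mpr
    calc t * Complex.arg z ≤ |Complex.arg z| * |t| := Inv.mul_le_abs _ _
      _ ≤ _ := by
        have := Inv.abs_arg_le z hz
        gcongr
  calc ‖z‖⁻¹ * Real.exp (t * Complex.arg z) * ‖M t‖
      ≤ ‖z‖⁻¹ * Real.exp ((Real.pi / 2 - z.re / ‖z‖) * |t|) * ‖M t‖ := by gcongr
    _ = _ := by ring

end Pool.Agent.TH713.BZ
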