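import Mathlib

/-!
Double integration by parts in a Mellin transform on the line `Re s = 1`.
-/

set_option autoImplicit false

open MeasureTheory Filter Topology Set

namespace Pool.Agent.TH713.BZ

namespace Mell2

lemma intg (f : ℝ → ℂ) (hf : ContinuousOn f (Ioi 0)) (M : ℝ) (g : ℝ → ℝ)
    (hg : IntegrableOn g (Ioi 1)) (h1 : ∀ x : ℝ, 0 < x → x ≤ 1 → ‖f x‖ ≤ M)
    (h2 : ∀ x : ℝ, 1 < x → ‖f x‖ ≤ g x) : IntegrableOn f (Ioi 0) := by
  have hu : Ioi (0 : ℝ) = Ioc 0 1 ∪ Ioi 1 := (Ioc_union_Ioi_eq_Ioi zero_le_one).symm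
  rw [hu]
  refine IntegrableOn.union ?_ ?_
  · refine Integrable.mono' (integrable_const M) ?_ ?_
    · exact (hf.mono Ioc_subset_Ioi_self).aestronglyMeasurable measurableSet_Ioc
    · exact ae_restrict_of_forall_mem measurableSet_Ioc fun x hx => h1 x hx.1 hx.2
  · refine Integrable.mono' hg ?_ ?_
    · exact (hf.mono (Ioi_subset_Ioi zero_le_one)).aestronglyMeasurable measurableSet_Ioi
    · exact ae_restrict_of_forall_mem measurableSet_Ioi fun x hx => h2 x hx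

lemma pow_deriv (r : ℂ) (x : ℝ) (hx : 0 < x) :
    HasDerivAt (fun y : ℝ => (y : ℂ) ^ r) (r * (x : ℂ) ^ (r - 1)) x := by
  have h1 : HasDerivAt (fun z : ℂ => z ^ r) (r * (x : ℂ) ^ (r - 1) * 1) (x : ℂ) :=
    (hasDerivAt_id (x : ℂ)).cpow_const (Or.inl hx)
  rw [mul_one] at h1
  exact h1.comp_ofReal

lemma pow_cont (r : ℂ) : ContinuousOn (fun y : ℝ => (y : ℂ) ^ r) (Ioi 0) := fun x hx =>
  (pow_deriv r x hx).continuousAt.continuousWithinAt

lemma norm_pow (r : ℂ) (x : ℝ) (hx : 0 < x) : ‖(x : ℂ) ^ r‖ = x ^ r.re :=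
  Complex.norm_cpow_eq_rpow_re_of_pos hx r

end Mell2

open Mell2 in
theorem mell2 (h0 h1 h2 : ℝ → ℂ) (L : ℂ) (c C K : ℝ) (hc : 0 < c)
    (hd0 : ∀ x : ℝ, 0 < x → HasDerivAt h0 (h1 x) x)
    (hd1 : ∀ x : ℝ, 0 < x → HasDerivAt h1 (h2 x) x)
    (hm2 : ContinuousOn h2 (Ioi 0))
    (hb0 : ∀ x : ℝ, 0 < x → ‖h0 x‖ ≤ C * Real.exp (-c * x))
    (hb1 : ∀ x : ℝ, 0 < x → ‖h1 x‖ ≤ C * Real.exp (-c * x))
    (hb2 : ∀ x : ℝ, 0 < x → ‖h2 x‖ ≤ C * Real.exp (-c * x))
    (hK : ∀ x : ℝ, 0 < x → x ≤ 1 → ‖h0 x - L‖ ≤ K * x ^ 2 ∧ ‖h1 x‖ ≤ K * x)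
    (s : ℂ) (hs : s.re = 1) :
    MellinConvergent (fun x : ℝ => (h0 x - L) / (x : ℂ) ^ 2) s ∧
      mellin h2 s = (s - 1) * (s - 2) * mellin (fun x : ℝ => (h0 x - L) / (x : ℂ) ^ 2) s := by
  have hC : 0 ≤ C := by
    have h := hb0 1 one_pos
    have h3 := norm_nonneg (h0 1)
    have h4 := Real.exp_pos (-c * 1)
    by_contra hcon
    push Not at hcon
    have := mul_neg_of_neg_of_pos hcon h4
    linarith
  have hK0 : 0 ≤ K := by
    have h := (hK 1 one_pos le_rfl).2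
    have h3 := norm_nonneg (h1 1)
    linarith
  have hexp : ∀ x : ℝ, 0 < x → Real.exp (-c * x) ≤ 1 := by
    intro x hx
    rw [Real.exp_le_one_iff]
    nlinarith
  -- norms of powers
  have n1 : ∀ x : ℝ, 0 < x → ‖(x : ℂ) ^ (s - 1)‖ = 1 := by
    intro x hx
    rw [norm_pow _ x hx, Complex.sub_re, hs, Complex.one_re, sub_self, Real.rpow_zero]
  have n2 : ∀ x : ℝ, 0 < x → ‖(x : ℂ) ^ (s - 2)‖ = x⁻¹ := by
    intro x hx
    rw [norm_pow _ x hx, Complex.sub_re, hs]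
    have : (1 : ℝ) - (2 : ℂ).re = -1 := by norm_num
    rw [this, Real.rpow_neg_one]
  have n3 : ∀ x : ℝ, 0 < x → ‖(x : ℂ) ^ (s - 3)‖ = (x ^ 2)⁻¹ := by
    intro x hx
    rw [norm_pow _ x hx, Complex.sub_re, hs]
    have : (1 : ℝ) - (3 : ℂ).re = -(2 : ℕ) := by norm_num
    rw [this, Real.rpow_neg hx.le, Real.rpow_natCast]
  have c0 : ContinuousOn h0 (Ioi 0) := fun x hx => (hd0 x hx).continuousAt.continuousWithinAt
  have c1 : ContinuousOn h1 (Ioi 0) := fun x hx => (hd1 x hx).continuousAt.continuousWithinAt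
  have gexp : ∀ A : ℝ, IntegrableOn (fun x : ℝ => A * Real.exp (-c * x)) (Ioi 1) := fun A =>
    (exp_neg_integrableOn_Ioi 1 hc).const_mul A
  have gsq : ∀ A : ℝ, IntegrableOn (fun x : ℝ => A * (x ^ 2)⁻¹) (Ioi 1) := by
    intro A
    have h : IntegrableOn (fun x : ℝ => A * x ^ (-2 : ℝ)) (Ioi 1) :=
      (integrableOn_Ioi_rpow_of_lt (a := -2) (by norm_num) (c := 1) one_pos).const_mul A
    refine h.congr_fun (fun x hx => ?_) measurableSet_Ioi
    have hx0 : (0 : ℝ) < x := lt_trans one_pos hx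
    have : (-2 : ℝ) = -(2 : ℕ) := by norm_num
    simp only
    rw [this, Real.rpow_neg hx0.le, Real.rpow_natCast]
  -- integrability
  have iA : IntegrableOn (fun x : ℝ => (x : ℂ) ^ (s - 1) * h2 x) (Ioi 0) := by
    refine intg _ ((pow_cont _).mul hm2) C (fun x => C * Real.exp (-c * x)) (gexp C) ?_ ?_
    · intro x hx _
      rw [norm_mul, n1 x hx, one_mul]
      refine (hb2 x hx).trans ?_
      have := mul_le_mul_of_nonneg_left (hexp x hx) hC
      linarith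
    · intro x hx
      have hx0 : (0 : ℝ) < x := lt_trans one_pos hx
      rw [norm_mul, n1 x hx0, one_mul]
      exact hb2 x hx0
  have iB : IntegrableOn (fun x : ℝ => (x : ℂ) ^ (s - 2) * h1 x) (Ioi 0) := by
    refine intg _ ((pow_cont _).mul c1) K (fun x => C * Real.exp (-c * x)) (gexp C) ?_ ?_
    · intro x hx hx1
      rw [norm_mul, n2 x hx, inv_mul_le_iff₀ hx, mul_comm x K]
      exact (hK x hx hx1).2
    · intro x hx
      have hx0 : (0 : ℝ) < x := lt_trans one_pos hx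
      rw [norm_mul, n2 x hx0]
      have h3 : x⁻¹ ≤ 1 := inv_le_one_of_one_le₀ hx.le
      calc x⁻¹ * ‖h1 x‖ ≤ 1 * ‖h1 x‖ := mul_le_mul_of_nonneg_right h3 (norm_nonneg _)
        _ = ‖h1 x‖ := one_mul _
        _ ≤ _ := hb1 x hx0
  have iD : IntegrableOn (fun x : ℝ => (x : ℂ) ^ (s - 3) * (h0 x - L)) (Ioi 0) := by
    refine intg _ ((pow_cont _).mul (c0.sub continuousOn_const)) K
      (fun x => (C + ‖L‖) * (x ^ 2)⁻¹) (gsq _) ?_ ?_
    · intro x hx hx1
      rw [norm_mul, n3 x hx, inv_mul_le_iff₀ (by positivity), mul_comm (x ^ 2) K]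
      exact (hK x hx hx1).1
    · intro x hx
      have hx0 : (0 : ℝ) < x := lt_trans one_pos hx
      rw [norm_mul, n3 x hx0, mul_comm]
      refine mul_le_mul_of_nonneg_right ?_ (by positivity)
      refine (norm_sub_le _ _).trans ?_
      have := mul_le_mul_of_nonneg_left (hexp x hx0) hC
      have h3 := hb0 x hx0
      linarith
  -- first integration by parts
  have t0 : Tendsto (fun x : ℝ => x) (𝓝[>] 0) (𝓝 0) := nhdsWithin_le_nhds
  have tK : Tendsto (fun x : ℝ => K * x) (𝓝[>] 0) (𝓝 0) := by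
    have := t0.const_mul K
    rwa [mul_zero] at this
  have near0 : ∀ᶠ x in 𝓝[>] (0 : ℝ), 0 < x ∧ x ≤ 1 := by
    filter_upwards [Ioc_mem_nhdsGT (zero_lt_one' ℝ)] with x hx
    exact hx
  have texp : Tendsto (fun x : ℝ => C * Real.exp (-c * x)) atTop (𝓝 0) := by
    have h3 : Tendsto (fun x : ℝ => -c * x) atTop atBot :=
      tendsto_id.const_mul_atTop_of_neg (by linarith)
    have := (Real.tendsto_exp_atBot.comp h3).const_mul C
    rwa [mul_zero] at this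
  have e1 : ∫ x in Ioi (0 : ℝ), (x : ℂ) ^ (s - 1) * h2 x =
      0 - 0 - ∫ x in Ioi (0 : ℝ), ((s - 1) * (x : ℂ) ^ (s - 2)) * h1 x := by
    refine integral_Ioi_mul_deriv_eq_deriv_mul (u := fun x : ℝ => (x : ℂ) ^ (s - 1)) (v := h1)
      (u' := fun x : ℝ => (s - 1) * (x : ℂ) ^ (s - 2)) (v' := h2) ?_ (fun x hx => hd1 x hx)
      iA ?_ ?_ ?_
    · intro x hx
      have h := pow_deriv (s - 1) x hx
      rwa [show s - 1 - 1 = s - 2 by ring] at h
    · have h : IntegrableOn (fun x : ℝ => (s - 1) * ((x : ℂ) ^ (s - 2) * h1 x)) (Ioi 0) :=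
        iB.const_mul (s - 1)
      refine h.congr_fun (fun x _ => ?_) measurableSet_Ioi
      simp only [Pi.mul_apply]
      ring
    · refine squeeze_zero_norm' ?_ tK
      filter_upwards [near0] with x hx
      rw [Pi.mul_apply, norm_mul, n1 x hx.1, one_mul]
      exact (hK x hx.1 hx.2).2
    · refine squeeze_zero_norm' ?_ texp
      filter_upwards [eventually_gt_atTop (0 : ℝ)] with x hx
      rw [Pi.mul_apply, norm_mul, n1 x hx, one_mul]
      exact hb1 x hx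
  have e2 : ∫ x in Ioi (0 : ℝ), (x : ℂ) ^ (s - 2) * h1 x =
      0 - 0 - ∫ x in Ioi (0 : ℝ), ((s - 2) * (x : ℂ) ^ (s - 3)) * (h0 x - L) := by
    refine integral_Ioi_mul_deriv_eq_deriv_mul (u := fun x : ℝ => (x : ℂ) ^ (s - 2))
      (v := fun x => h0 x - L) (u' := fun x : ℝ => (s - 2) * (x : ℂ) ^ (s - 3)) (v' := h1)
      ?_ (fun x hx => (hd0 x hx).sub_const L) iB ?_ ?_ ?_
    · intro x hx
      have h := pow_deriv (s - 2) x hx
      rwa [show s - 2 - 1 = s - 3 by ring] at h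
    · have h : IntegrableOn (fun x : ℝ => (s - 2) * ((x : ℂ) ^ (s - 3) * (h0 x - L))) (Ioi 0) :=
        iD.const_mul (s - 2)
      refine h.congr_fun (fun x _ => ?_) measurableSet_Ioi
      simp only [Pi.mul_apply]
      ring
    · refine squeeze_zero_norm' ?_ tK
      filter_upwards [near0] with x hx
      rw [Pi.mul_apply, norm_mul, n2 x hx.1, inv_mul_le_iff₀ hx.1]
      refine (hK x hx.1 hx.2).1.trans (le_of_eq ?_)
      ring
    · have tinv : Tendsto (fun x : ℝ => (C + ‖L‖) * x⁻¹) atTop (𝓝 0) := by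
        have := tendsto_inv_atTop_zero.const_mul (C + ‖L‖)
        rwa [mul_zero] at this
      refine squeeze_zero_norm' ?_ tinv
      filter_upwards [eventually_gt_atTop (0 : ℝ)] with x hx
      rw [Pi.mul_apply, norm_mul, n2 x hx, mul_comm]
      refine mul_le_mul_of_nonneg_right ?_ (by positivity)
      refine (norm_sub_le _ _).trans ?_
      have := mul_le_mul_of_nonneg_left (hexp x hx) hC
      have h3 := hb0 x hx
      linarith
  have hform : ∀ x ∈ Ioi (0 : ℝ), (x : ℂ) ^ (s - 3) * (h0 x - L) =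
      (x : ℂ) ^ (s - 1) • ((h0 x - L) / (x : ℂ) ^ 2) := by
    intro x hx
    have hx0 : (x : ℂ) ≠ 0 := by exact_mod_cast (ne_of_gt hx)
    have h3 : (x : ℂ) ^ (s - 3) = (x : ℂ) ^ (s - 1) / (x : ℂ) ^ 2 := by
      rw [show s - 3 = s - 1 - 2 by ring, Complex.cpow_sub _ _ hx0]
      congr 1
      exact Complex.cpow_ofNat _ 2
    rw [h3, smul_eq_mul]
    ring
  refine ⟨iD.congr_fun hform measurableSet_Ioi, ?_⟩
  unfold mellin
  have e3 : ∫ x in Ioi (0 : ℝ), (x : ℂ) ^ (s - 1) • ((h0 x - L) / (x : ℂ) ^ 2) =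
      ∫ x in Ioi (0 : ℝ), (x : ℂ) ^ (s - 3) * (h0 x - L) :=
    (setIntegral_congr_fun measurableSet_Ioi hform).symm
  have e4 : ∫ x in Ioi (0 : ℝ), (x : ℂ) ^ (s - 1) • h2 x =
      ∫ x in Ioi (0 : ℝ), (x : ℂ) ^ (s - 1) * h2 x := rfl
  rw [e3, e4, e1]
  have e5 : ∫ x in Ioi (0 : ℝ), ((s - 1) * (x : ℂ) ^ (s - 2)) * h1 x =
      (s - 1) * ∫ x in Ioi (0 : ℝ), (x : ℂ) ^ (s - 2) * h1 x := by
    rw [← integral_const_mul]
    simp only [mul_assoc]
  have e6 : ∫ x in Ioi (0 : ℝ), ((s - 2) * (x : ℂ) ^ (s - 3)) * (h0 x - L) =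
      (s - 2) * ∫ x in Ioi (0 : ℝ), (x : ℂ) ^ (s - 3) * (h0 x - L) := by
    rw [← integral_const_mul]
    simp only [mul_assoc]
  rw [e5, e2, e6]
  ring

end Pool.Agent.TH713.BZ
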