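import Mathlib
set_option autoImplicit false
open MeasureTheory Filter Topology Set
namespace Pool.Agent.TH713.BZ

theorem fin2 (θ : ℝ) (hθ : Irrational θ) :
    Module.finrank ℚ (Submodule.span ℚ (Set.range (![1, θ] : Fin 2 → ℝ))) = 2 := by
  have h : LinearIndependent ℚ (![1, θ] : Fin 2 → ℝ) := by
    rw [LinearIndependent.pair_iff]
    intro s t hst
    have hst' : (s : ℝ) + (t : ℝ) * θ = 0 := by
      rw [Rat.smul_def, Rat.smul_def, mul_one] at hst
      exact hst
    have ht : t = 0 := by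
      by_contra ht
      have htR : (t : ℝ) ≠ 0 := by exact_mod_cast ht
      apply hθ
      refine ⟨-s / t, ?_⟩
      push_cast
      rw [div_eq_iff htR]
      linarith
    refine ⟨?_, ht⟩
    rw [ht, Rat.cast_zero, zero_mul, add_zero] at hst'
    exact_mod_cast hst'
  rw [finrank_span_eq_card h, Fintype.card_fin]

theorem mconj (φ : ℝ → ℝ) (t : ℝ) :
    ‖mellin (fun x : ℝ => (φ x : ℂ)) (1 + (-t : ℝ) * Complex.I)‖ =
      ‖mellin (fun x : ℝ => (φ x : ℂ)) (1 + (t : ℝ) * Complex.I)‖ := by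
  have h : mellin (fun x : ℝ => (φ x : ℂ)) (1 + (-t : ℝ) * Complex.I) =
      (starRingEnd ℂ) (mellin (fun x : ℝ => (φ x : ℂ)) (1 + (t : ℝ) * Complex.I)) := by
    unfold mellin
    rw [← integral_conj]
    apply MeasureTheory.setIntegral_congr_fun measurableSet_Ioi
    intro x hx
    have hx0 : (0 : ℝ) < x := hx
    simp only [smul_eq_mul, map_mul, Complex.conj_ofReal]
    congr 1
    have e : (1 + ((-t : ℝ) : ℂ) * Complex.I - 1) =
        (starRingEnd ℂ) (1 + (t : ℂ) * Complex.I - 1) := by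
      simp
    rw [e, Complex.cpow_conj _ _ (by
      rw [Complex.arg_ofReal_of_nonneg hx0.le]
      exact Real.pi_ne_zero.symm), Complex.conj_ofReal]
  rw [h, RCLike.norm_conj]

end Pool.Agent.TH713.BZ
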